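import Pool.Agent.W668.Uni.Stmts

/-!
# Landsberg unicorn: double integrals over the octant
-/

set_option autoImplicit false

open Set MeasureTheory
open scoped ContDiff Topology

namespace Pool.Agent.W596.Uni

open Pool.Agent.W668.Uni

theorem sig_sq (t ψ : ℝ) : sig t ψ ^ 2 = t ^ 2 * Real.cos ψ ^ 2 + Real.sin ψ ^ 2 := by
  unfold sig
  exact Real.sq_sqrt (by positivity)

theorem sig_nonneg (t ψ : ℝ) : 0 ≤ sig t ψ := Real.sqrt_nonneg _

theorem sig_le_one {t : ℝ} (ψ : ℝ) (h0 : 0 ≤ t) (h1 : t ≤ 1) : sig t ψ ≤ 1 := by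
  unfold sig
  rw [Real.sqrt_le_one]
  have := Real.sin_sq_add_cos_sq ψ
  have h2 : 0 ≤ 1 - t ^ 2 := by nlinarith
  nlinarith [mul_nonneg h2 (sq_nonneg (Real.cos ψ))]

theorem le_sig {t : ℝ} (ψ : ℝ) (h0 : 0 ≤ t) (h1 : t ≤ 1) : t ≤ sig t ψ := by
  unfold sig
  apply Real.le_sqrt_of_sq_le
  have := Real.sin_sq_add_cos_sq ψ
  nlinarith [sq_nonneg (Real.sin ψ), mul_nonneg h0 h0, mul_nonneg (sq_nonneg (Real.sin ψ)) (show 0 ≤ 1 - t^2 by nlinarith)]

theorem sig_pos {t : ℝ} (ψ : ℝ) (h0 : 0 < t) (h1 : t ≤ 1) : 0 < sig t ψ :=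
  lt_of_lt_of_le h0 (le_sig ψ h0.le h1)

theorem sin_arcsin_sig {t : ℝ} (ψ : ℝ) (h0 : 0 ≤ t) (h1 : t ≤ 1) :
    Real.sin (Real.arcsin (sig t ψ)) = sig t ψ :=
  Real.sin_arcsin (by linarith [sig_nonneg t ψ]) (sig_le_one ψ h0 h1)

theorem cos_bet {t : ℝ} (ψ : ℝ) (h0 : 0 < t) (h1 : t ≤ 1) :
    Real.cos (bet t ψ) = t / sig t ψ := by
  unfold bet
  have h2 := sig_pos ψ h0 h1
  have h3 := le_sig ψ h0.le h1
  apply Real.cos_arccos
  · have : 0 ≤ t / sig t ψ := by positivity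
    linarith
  · rw [div_le_one h2]; exact h3

/-- first double integral -/
theorem dbl1 (hsph : P_sph) (g : ℝ → ℝ) (hg : Continuous g) (x : ℝ) :
    (∫ φ in (0 : ℝ)..(Real.pi / 2), ∫ t in (0 : ℝ)..(Real.pi / 2),
      Real.sin φ ^ 3 * (Real.cos t ^ 2 * g (x * Real.sin φ * Real.cos t))) =
      Real.pi / 2 * ∫ t in (0 : ℝ)..1, t ^ 2 * g (x * t) := by
  have h := hsph (fun φ t => Real.sin φ ^ 2 * (Real.cos t ^ 2 * g (x * Real.sin φ * Real.cos t)))
    (by fun_prop)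
  have e1 : (∫ φ in (0 : ℝ)..(Real.pi / 2), ∫ t in (0 : ℝ)..(Real.pi / 2),
      Real.sin φ ^ 3 * (Real.cos t ^ 2 * g (x * Real.sin φ * Real.cos t))) =
      ∫ φ in (0 : ℝ)..(Real.pi / 2), ∫ t in (0 : ℝ)..(Real.pi / 2),
        (Real.sin φ ^ 2 * (Real.cos t ^ 2 * g (x * Real.sin φ * Real.cos t))) * Real.sin φ := by
    congr 1
    funext φ
    congr 1
    funext t
    ring
  rw [e1, h]
  have e2 : (∫ t in (0 : ℝ)..1, ∫ ψ in (0 : ℝ)..(Real.pi / 2),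
      Real.sin (Real.arcsin (sig t ψ)) ^ 2 * (Real.cos (bet t ψ) ^ 2 *
        g (x * Real.sin (Real.arcsin (sig t ψ)) * Real.cos (bet t ψ)))) =
      ∫ t in (0 : ℝ)..1, Real.pi / 2 * (t ^ 2 * g (x * t)) := by
    apply intervalIntegral.integral_congr_ae
    refine Filter.Eventually.of_forall fun t ht => ?_
    rw [uIoc_of_le zero_le_one] at ht
    have e3 : ∀ ψ : ℝ, Real.sin (Real.arcsin (sig t ψ)) ^ 2 * (Real.cos (bet t ψ) ^ 2 *
        g (x * Real.sin (Real.arcsin (sig t ψ)) * Real.cos (bet t ψ))) = t ^ 2 * g (x * t) := by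
      intro ψ
      have h2 := sig_pos ψ ht.1 ht.2
      rw [sin_arcsin_sig ψ ht.1.le ht.2, cos_bet ψ ht.1 ht.2]
      have e4 : x * sig t ψ * (t / sig t ψ) = x * t := by field_simp
      rw [e4]
      field_simp
    simp only [e3]
    rw [intervalIntegral.integral_const]
    simp
  rw [e2, intervalIntegral.integral_const_mul]

/-- the elementary angular integral -/
theorem ang {t : ℝ} (h0 : 0 < t) (h1 : t < 1) :
    (∫ ψ in (0 : ℝ)..(Real.pi / 2), Real.sin ψ ^ 2 / sig t ψ ^ 2) = Real.pi / (2 * (1 + t)) := by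
  have hD : ∀ ψ : ℝ, 0 < t * Real.cos ψ ^ 2 + Real.sin ψ ^ 2 := by
    intro ψ
    have := Real.sin_sq_add_cos_sq ψ
    nlinarith [sq_nonneg (Real.cos ψ), sq_nonneg (Real.sin ψ), mul_nonneg (sub_nonneg.2 h1.le) (sq_nonneg (Real.sin ψ))]
  have hS : ∀ ψ : ℝ, 0 < t ^ 2 * Real.cos ψ ^ 2 + Real.sin ψ ^ 2 := by
    intro ψ
    have h2 := sig_pos ψ h0 h1.le
    have h3 := sig_sq t ψ
    have : 0 < sig t ψ ^ 2 := by positivity
    linarith
  have ht2 : (0 : ℝ) < 1 - t ^ 2 := by nlinarith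
  set G : ℝ → ℝ := fun ψ => (ψ - t * (ψ + Real.arctan ((1 - t) * (Real.sin ψ * Real.cos ψ) /
    (t * Real.cos ψ ^ 2 + Real.sin ψ ^ 2)))) / (1 - t ^ 2) with hG
  have hder : ∀ ψ : ℝ, HasDerivAt G (Real.sin ψ ^ 2 / sig t ψ ^ 2) ψ := by
    intro ψ
    have hs := Real.hasDerivAt_sin ψ
    have hc := Real.hasDerivAt_cos ψ
    have hDp := hD ψ
    have hSp := hS ψ
    have hsc := Real.sin_sq_add_cos_sq ψ
    have hN : HasDerivAt (fun y => (1 - t) * (Real.sin y * Real.cos y))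
        ((1 - t) * (Real.cos ψ * Real.cos ψ + Real.sin ψ * -Real.sin ψ)) ψ :=
      (hs.mul hc).const_mul (1 - t)
    have hDd : HasDerivAt (fun y => t * Real.cos y ^ 2 + Real.sin y ^ 2)
        (t * (2 * Real.cos ψ * -Real.sin ψ) + 2 * Real.sin ψ * Real.cos ψ) ψ := by
      have h1 : HasDerivAt (fun y => Real.cos y ^ 2) (2 * Real.cos ψ * -Real.sin ψ) ψ := by
        simpa using hc.fun_pow 2
      have h2 : HasDerivAt (fun y => Real.sin y ^ 2) (2 * Real.sin ψ * Real.cos ψ) ψ := by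
        simpa using hs.fun_pow 2
      exact (h1.const_mul t).add h2
    have hq : HasDerivAt (fun y => (1 - t) * (Real.sin y * Real.cos y) /
        (t * Real.cos y ^ 2 + Real.sin y ^ 2))
        (((1 - t) * (Real.cos ψ * Real.cos ψ + Real.sin ψ * -Real.sin ψ) *
          (t * Real.cos ψ ^ 2 + Real.sin ψ ^ 2) - (1 - t) * (Real.sin ψ * Real.cos ψ) *
          (t * (2 * Real.cos ψ * -Real.sin ψ) + 2 * Real.sin ψ * Real.cos ψ)) /
          (t * Real.cos ψ ^ 2 + Real.sin ψ ^ 2) ^ 2) ψ := hN.div hDd hDp.ne'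
    have hat := hq.arctan
    have h5 : HasDerivAt G _ ψ :=
      (((hasDerivAt_id ψ).sub (((hasDerivAt_id ψ).add hat).const_mul t)).div_const
      (1 - t ^ 2))
    refine h5.congr_deriv ?_
    rw [sig_sq]
    set s := Real.sin ψ with hsdef
    set c := Real.cos ψ with hcdef
    have key : (t * c ^ 2 + s ^ 2) ^ 2 + ((1 - t) * (s * c)) ^ 2 = t ^ 2 * c ^ 2 + s ^ 2 := by
      have : (t * c ^ 2 + s ^ 2) ^ 2 + ((1 - t) * (s * c)) ^ 2 =
        (t ^ 2 * c ^ 2 + s ^ 2) * (s ^ 2 + c ^ 2) := by ring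
      rw [this, hsc, mul_one]
    have hne : 1 + ((1 - t) * (s * c) / (t * c ^ 2 + s ^ 2)) ^ 2 =
        (t ^ 2 * c ^ 2 + s ^ 2) / (t * c ^ 2 + s ^ 2) ^ 2 := by
      rw [← key]; field_simp
    rw [hne]
    have hc2 : c ^ 2 = 1 - s ^ 2 := by linarith
    have hnum : (1 - t) * (c * c + s * -s) * (t * c ^ 2 + s ^ 2) -
        (1 - t) * (s * c) * (t * (2 * c * -s) + 2 * s * c) = (1 - t) * (t * c ^ 2 - s ^ 2) := by
      have : (1 - t) * (c * c + s * -s) * (t * c ^ 2 + s ^ 2) -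
        (1 - t) * (s * c) * (t * (2 * c * -s) + 2 * s * c) =
        (1 - t) * (t * c ^ 2 - s ^ 2) * (s ^ 2 + c ^ 2) := by ring
      rw [this, hsc, mul_one]
    rw [hnum]
    have e1 : 1 / ((t ^ 2 * c ^ 2 + s ^ 2) / (t * c ^ 2 + s ^ 2) ^ 2) *
        ((1 - t) * (t * c ^ 2 - s ^ 2) / (t * c ^ 2 + s ^ 2) ^ 2) =
        (1 - t) * (t * c ^ 2 - s ^ 2) / (t ^ 2 * c ^ 2 + s ^ 2) := by
      field_simp
    rw [e1]
    have e2 : t * (1 + (1 - t) * (t * c ^ 2 - s ^ 2) / (t ^ 2 * c ^ 2 + s ^ 2)) =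
        t ^ 2 / (t ^ 2 * c ^ 2 + s ^ 2) := by
      rw [eq_div_iff hSp.ne', mul_assoc, add_mul, div_mul_cancel₀ _ hSp.ne', hc2]
      ring
    rw [e2, eq_div_iff hSp.ne', div_mul_eq_mul_div, div_eq_iff ht2.ne', sub_mul,
      div_mul_cancel₀ _ hSp.ne', hc2]
    ring
  have hcont : Continuous (fun ψ : ℝ => Real.sin ψ ^ 2 / sig t ψ ^ 2) := by
    simp only [sig_sq]
    apply Continuous.div (by fun_prop) (by fun_prop)
    intro ψ
    exact (hS ψ).ne'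
  rw [intervalIntegral.integral_eq_sub_of_hasDerivAt (f := G) (fun ψ _ => hder ψ)
    (hcont.intervalIntegrable _ _)]
  rw [hG]
  simp only [Real.sin_pi_div_two, Real.cos_pi_div_two, Real.sin_zero, Real.cos_zero]
  norm_num
  have h4 : (1 + t) ≠ 0 := by linarith
  have h5 : (1 - t) ≠ 0 := by linarith
  have h6 : 1 - t ^ 2 = (1 - t) * (1 + t) := by ring
  rw [h6]
  field_simp

/-- second double integral -/
theorem dbl2 (hsph : P_sph) (g : ℝ → ℝ) (hg : Continuous g) (x : ℝ) :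
    (∫ φ in (0 : ℝ)..(Real.pi / 2), ∫ t in (0 : ℝ)..(Real.pi / 2),
      Real.sin φ ^ 3 * (4 * (Real.sin t ^ 2 * Real.cos t ^ 2 *
        g (x * Real.sin φ * Real.cos t)))) =
      2 * Real.pi * ∫ t in (0 : ℝ)..1, (t ^ 2 - t ^ 3) * g (x * t) := by
  have h := hsph (fun φ t => Real.sin φ ^ 2 * (4 * (Real.sin t ^ 2 * Real.cos t ^ 2 *
    g (x * Real.sin φ * Real.cos t)))) (by fun_prop)
  have e1 : (∫ φ in (0 : ℝ)..(Real.pi / 2), ∫ t in (0 : ℝ)..(Real.pi / 2),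
      Real.sin φ ^ 3 * (4 * (Real.sin t ^ 2 * Real.cos t ^ 2 *
        g (x * Real.sin φ * Real.cos t)))) =
      ∫ φ in (0 : ℝ)..(Real.pi / 2), ∫ t in (0 : ℝ)..(Real.pi / 2),
        (Real.sin φ ^ 2 * (4 * (Real.sin t ^ 2 * Real.cos t ^ 2 *
          g (x * Real.sin φ * Real.cos t)))) * Real.sin φ := by
    congr 1
    funext φ
    congr 1
    funext t
    ring
  rw [e1, h]
  have e2 : (∫ t in (0 : ℝ)..1, ∫ ψ in (0 : ℝ)..(Real.pi / 2),
      Real.sin (Real.arcsin (sig t ψ)) ^ 2 * (4 * (Real.sin (bet t ψ) ^ 2 *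
        Real.cos (bet t ψ) ^ 2 *
        g (x * Real.sin (Real.arcsin (sig t ψ)) * Real.cos (bet t ψ))))) =
      ∫ t in (0 : ℝ)..1, 2 * Real.pi * ((t ^ 2 - t ^ 3) * g (x * t)) := by
    apply intervalIntegral.integral_congr_ae
    have hne : ∀ᵐ t : ℝ, t ≠ 1 := by
      simp [ae_iff, measure_singleton]
    filter_upwards [hne] with t ht1 ht
    rw [uIoc_of_le zero_le_one] at ht
    have ht1' : t < 1 := lt_of_le_of_ne ht.2 ht1
    have e3 : ∀ ψ : ℝ, Real.sin (Real.arcsin (sig t ψ)) ^ 2 * (4 * (Real.sin (bet t ψ) ^ 2 *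
        Real.cos (bet t ψ) ^ 2 *
        g (x * Real.sin (Real.arcsin (sig t ψ)) * Real.cos (bet t ψ)))) =
        (4 * t ^ 2 * (1 - t ^ 2) * g (x * t)) * (Real.sin ψ ^ 2 / sig t ψ ^ 2) := by
      intro ψ
      have h2 := sig_pos ψ ht.1 ht.2
      have h3 : Real.sin (bet t ψ) ^ 2 = 1 - (t / sig t ψ) ^ 2 := by
        have := Real.sin_sq_add_cos_sq (bet t ψ)
        rw [cos_bet ψ ht.1 ht.2] at this
        linarith
      rw [h3, sin_arcsin_sig ψ ht.1.le ht.2, cos_bet ψ ht.1 ht.2]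
      have e4 : x * sig t ψ * (t / sig t ψ) = x * t := by field_simp
      rw [e4]
      have h5 := sig_sq t ψ
      have h6 := Real.sin_sq_add_cos_sq ψ
      have h7 : sig t ψ ^ 2 - t ^ 2 = (1 - t ^ 2) * Real.sin ψ ^ 2 := by
        rw [h5]
        have : Real.cos ψ ^ 2 = 1 - Real.sin ψ ^ 2 := by linarith
        rw [this]; ring
      field_simp
      rw [h7]
      ring
    simp only [e3]
    rw [intervalIntegral.integral_const_mul, ang ht.1 ht1']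
    have h8 : (1 + t) ≠ 0 := by linarith [ht.1]
    field_simp
    ring
  rw [e2, intervalIntegral.integral_const_mul]

end Pool.Agent.W596.Uni
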