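import Pool.Agent.W596.Uni.Inj

/-!
# Landsberg unicorn: the leading order solution (UNI-F0)
-/

set_option autoImplicit false

open Set MeasureTheory
open scoped ContDiff Topology

namespace Pool.Agent.W596.Uni

open Pool.Agent.W668.Uni

/-- smoothness of weighted averages -/
theorem avg_hasDerivAt (a : ℝ → ℝ) (ha : Continuous a) (G : ℝ → ℝ) (hG : ContDiff ℝ 1 G) (x : ℝ) :
    HasDerivAt (fun x => ∫ φ in (0 : ℝ)..(Real.pi / 2), a φ * G (x * Real.sin φ))
      (∫ φ in (0 : ℝ)..(Real.pi / 2), (a φ * Real.sin φ) * deriv G (x * Real.sin φ)) x := by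
  have hGc : Continuous G := hG.continuous
  have hG' : Continuous (deriv G) := hG.continuous_deriv le_rfl
  have hGd : Differentiable ℝ G := hG.differentiable (by norm_num)
  -- bound on a compact set
  have hcomp : IsCompact (Icc (x - 1) (x + 1) ×ˢ Icc (0 : ℝ) (Real.pi / 2)) :=
    isCompact_Icc.prod isCompact_Icc
  have hF' : Continuous (fun p : ℝ × ℝ => (a p.2 * Real.sin p.2) * deriv G (p.1 * Real.sin p.2)) := by
    fun_prop
  obtain ⟨B, hB⟩ := hcomp.exists_bound_of_continuousOn hF'.continuousOn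
  have := intervalIntegral.hasDerivAt_integral_of_dominated_loc_of_deriv_le
    (μ := volume) (a := (0 : ℝ)) (b := Real.pi / 2) (s := Ioo (x - 1) (x + 1))
    (F := fun x φ => a φ * G (x * Real.sin φ))
    (F' := fun x φ => (a φ * Real.sin φ) * deriv G (x * Real.sin φ)) (x₀ := x)
    (bound := fun _ => B) (Ioo_mem_nhds (by linarith) (by linarith))
    (Filter.Eventually.of_forall fun z => by
      have : Continuous (fun φ => a φ * G (z * Real.sin φ)) := by fun_prop
      exact this.aestronglyMeasurable)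
    (by
      have : Continuous (fun φ => a φ * G (x * Real.sin φ)) := by fun_prop
      exact this.intervalIntegrable _ _)
    (by
      have : Continuous (fun φ => (a φ * Real.sin φ) * deriv G (x * Real.sin φ)) := by fun_prop
      exact this.aestronglyMeasurable)
    (Filter.Eventually.of_forall fun φ hφ z hz => by
      rw [uIoc_of_le Th_le] at hφ
      exact hB (z, φ) ⟨⟨hz.1.le, hz.2.le⟩, ⟨hφ.1.le, hφ.2⟩⟩)
    intervalIntegrable_const
    (Filter.Eventually.of_forall fun φ _ z _ => by
      have h1 : HasDerivAt (fun z => z * Real.sin φ) (1 * Real.sin φ) z :=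
        (hasDerivAt_id z).mul_const _
      have h2 := (hGd (z * Real.sin φ)).hasDerivAt.comp z h1
      have h3 := h2.const_mul (a φ)
      refine h3.congr_deriv ?_
      ring)
  exact this.2

theorem avg_contDiff (n : ℕ) : ∀ (a : ℝ → ℝ), Continuous a → ∀ (G : ℝ → ℝ), ContDiff ℝ ∞ G →
    ContDiff ℝ n (fun x => ∫ φ in (0 : ℝ)..(Real.pi / 2), a φ * G (x * Real.sin φ)) := by
  induction n with
  | zero =>
    intro a ha G hG
    have hG1 : ContDiff ℝ 1 G := hG.of_le (by exact_mod_cast le_top)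
    have : Differentiable ℝ (fun x => ∫ φ in (0 : ℝ)..(Real.pi / 2), a φ * G (x * Real.sin φ)) :=
      fun x => (avg_hasDerivAt a ha G hG1 x).differentiableAt
    exact contDiff_zero.2 this.continuous
  | succ n ih =>
    intro a ha G hG
    have hG1 : ContDiff ℝ 1 G := hG.of_le (by exact_mod_cast le_top)
    have hd := fun x => avg_hasDerivAt a ha G hG1 x
    have hG' : ContDiff ℝ ∞ (deriv G) := (contDiff_infty_iff_deriv.1 hG).2
    push_cast
    rw [contDiff_succ_iff_deriv]
    refine ⟨fun x => (hd x).differentiableAt, by simp, ?_⟩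
    have : deriv (fun x => ∫ φ in (0 : ℝ)..(Real.pi / 2), a φ * G (x * Real.sin φ)) =
        fun x => ∫ φ in (0 : ℝ)..(Real.pi / 2), (a φ * Real.sin φ) * deriv G (x * Real.sin φ) :=
      funext fun x => (hd x).deriv
    rw [this]
    exact ih (fun φ => a φ * Real.sin φ) (ha.mul Real.continuous_sin) _ hG'

theorem avg_smooth (a : ℝ → ℝ) (ha : Continuous a) (G : ℝ → ℝ) (hG : ContDiff ℝ ∞ G) :
    ContDiff ℝ ∞ (fun x => ∫ φ in (0 : ℝ)..(Real.pi / 2), a φ * G (x * Real.sin φ)) :=
  contDiff_infty.2 fun n => avg_contDiff n a ha G hG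


/-! ### the functions -/

/-- cut-off -/
noncomputable def chi (x : ℝ) : ℝ := Real.smoothTransition (4 * x - 1)

theorem chi_smooth : ContDiff ℝ ∞ chi :=
  (Real.smoothTransition.contDiff (n := ⊤)).comp (by fun_prop)

theorem chi_zero {x : ℝ} (h : x ≤ 1 / 4) : chi x = 0 :=
  Real.smoothTransition.zero_of_nonpos (by linarith)

theorem chi_one {x : ℝ} (h : 1 / 2 ≤ x) : chi x = 1 :=
  Real.smoothTransition.one_of_one_le (by linarith)

theorem chi_mono : Monotone chi := fun x y h => Real.smoothTransition.monotone (by linarith)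

theorem chi_nonneg (x : ℝ) : 0 ≤ chi x := Real.smoothTransition.nonneg _

theorem chi_le_one (x : ℝ) : chi x ≤ 1 := Real.smoothTransition.le_one _

/-- the right side -/
noncomputable def CC (x : ℝ) : ℝ := Real.pi / 24 * ((1 - chi x) * x ^ 2 + chi x)

theorem CC_smooth : ContDiff ℝ ∞ CC := by
  have := chi_smooth
  unfold CC
  fun_prop

theorem CC_pos {x : ℝ} (h : 0 < x) : 0 < CC x := by
  unfold CC
  have h1 := chi_nonneg x
  have h2 := chi_le_one x
  have h3 : 0 < (1 - chi x) * x ^ 2 + chi x := by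
    rcases h2.lt_or_eq with h4 | h4
    · have : 0 < (1 - chi x) * x ^ 2 := by
        have : 0 < 1 - chi x := by linarith
        positivity
      linarith
    · rw [h4]; norm_num
  have := Real.pi_pos
  positivity

theorem CC_hasDerivAt (x : ℝ) : HasDerivAt CC (Real.pi / 24 * (deriv chi x * (1 - x ^ 2) +
    (1 - chi x) * (2 * x))) x := by
  have h1 : HasDerivAt chi (deriv chi x) x :=
    ((chi_smooth.differentiable (by simp)) x).hasDerivAt
  have h2 : HasDerivAt (fun x : ℝ => x ^ 2) (2 * x) x := by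
    simpa using hasDerivAt_pow 2 x
  have h3 := (((h1.const_sub 1).mul h2).add h1).const_mul (Real.pi / 24)
  refine h3.congr_deriv ?_
  ring

theorem CC_deriv_nonneg {x : ℝ} (h : 0 < x) : 0 ≤ deriv CC x := by
  rw [(CC_hasDerivAt x).deriv]
  have hpi := Real.pi_pos
  have h1 : 0 ≤ deriv chi x := chi_mono.deriv_nonneg
  have h2 := chi_le_one x
  rcases le_or_gt x (1 / 2) with h3 | h3
  · have h4 : 0 ≤ 1 - x ^ 2 := by nlinarith
    have h5 : 0 ≤ 1 - chi x := by linarith
    positivity
  · have h4 : deriv chi x = 0 := by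
      have : chi =ᶠ[𝓝 x] fun _ => (1 : ℝ) := by
        filter_upwards [Ioi_mem_nhds h3] with z hz
        exact chi_one (le_of_lt hz)
      rw [this.deriv_eq]
      simp
    rw [h4, chi_one h3.le]
    simp

/-- the density -/
noncomputable def GG (z : ℝ) : ℝ := 3 * CC z + z * deriv CC z

theorem GG_smooth : ContDiff ℝ ∞ GG := by
  have h1 := CC_smooth
  have h2 : ContDiff ℝ ∞ (deriv CC) := (contDiff_infty_iff_deriv.1 h1).2
  unfold GG
  fun_prop

theorem GG_pos {z : ℝ} (h : 0 < z) : 0 < GG z := by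
  unfold GG
  have h1 := CC_pos h
  have h2 := CC_deriv_nonneg h
  positivity

theorem GG_near {z : ℝ} (h : z ≤ 1 / 4) : GG z = 5 * Real.pi / 24 * z ^ 2 := by
  have h1 : ∀ z : ℝ, z < 1 / 4 → GG z = 5 * Real.pi / 24 * z ^ 2 := by
    intro z hz
    have h2 : deriv chi z = 0 := by
      have : chi =ᶠ[𝓝 z] fun _ => (0 : ℝ) := by
        filter_upwards [Iio_mem_nhds hz] with u hu
        exact chi_zero (le_of_lt hu)
      rw [this.deriv_eq]
      simp
    unfold GG
    rw [(CC_hasDerivAt z).deriv, h2, chi_zero hz.le]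
    unfold CC
    rw [chi_zero hz.le]
    ring
  have hcl : IsClosed {z : ℝ | GG z = 5 * Real.pi / 24 * z ^ 2} :=
    isClosed_eq GG_smooth.continuous (by fun_prop)
  have hsub : closure (Iio (1 / 4 : ℝ)) ⊆ {z : ℝ | GG z = 5 * Real.pi / 24 * z ^ 2} :=
    hcl.closure_subset_iff.2 fun z hz => h1 z hz
  rw [closure_Iio] at hsub
  exact hsub h

/-- the square of `b₀` -/
noncomputable def bta (x : ℝ) : ℝ :=
  1 / Real.pi * ∫ φ in (0 : ℝ)..(Real.pi / 2), Real.sin φ ^ 3 * GG (x * Real.sin φ)

theorem bta_smooth : ContDiff ℝ ∞ bta := by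
  have := avg_smooth (fun φ => Real.sin φ ^ 3) (by fun_prop) GG GG_smooth
  unfold bta
  exact contDiff_const.mul this

theorem sin5 : (∫ φ in (0 : ℝ)..(Real.pi / 2), Real.sin φ ^ 5) = 8 / 15 := by
  rw [show (5 : ℕ) = 3 + 2 from rfl, integral_sin_pow]
  norm_num

theorem bta_near {x : ℝ} (h : x ≤ 1 / 4) : bta x = x ^ 2 / 9 := by
  unfold bta
  have h1 : (∫ φ in (0 : ℝ)..(Real.pi / 2), Real.sin φ ^ 3 * GG (x * Real.sin φ)) =
      ∫ φ in (0 : ℝ)..(Real.pi / 2), (5 * Real.pi / 24 * x ^ 2) * Real.sin φ ^ 5 := by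
    apply intervalIntegral.integral_congr
    intro φ hφ
    rw [uIcc_of_le Th_le] at hφ
    have hs0 : 0 ≤ Real.sin φ := Real.sin_nonneg_of_nonneg_of_le_pi hφ.1
      (by linarith [hφ.2, Real.pi_pos])
    have hs1 : Real.sin φ ≤ 1 := Real.sin_le_one φ
    have h2 : x * Real.sin φ ≤ 1 / 4 := by
      rcases le_or_gt x 0 with h3 | h3
      · nlinarith
      · nlinarith
    simp only []
    rw [GG_near h2]
    ring
  rw [h1, intervalIntegral.integral_const_mul, sin5]
  have := Real.pi_pos
  field_simp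
  ring

theorem bta_pos {x : ℝ} (h : 0 < x) : 0 < bta x := by
  unfold bta
  have hpi := Real.pi_pos
  have hcont : Continuous (fun φ => Real.sin φ ^ 3 * GG (x * Real.sin φ)) := by
    have := GG_smooth.continuous
    fun_prop
  have h1 : 0 < ∫ φ in (0 : ℝ)..(Real.pi / 2), Real.sin φ ^ 3 * GG (x * Real.sin φ) := by
    apply intervalIntegral.intervalIntegral_pos_of_pos_on (hcont.intervalIntegrable _ _) _
      (by positivity)
    intro φ hφ
    have hs : 0 < Real.sin φ := Real.sin_pos_of_pos_of_lt_pi hφ.1 (by linarith [hφ.2])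
    have h2 := GG_pos (mul_pos h hs)
    positivity
  positivity

/-- `b₀` -/
noncomputable def b0 (x : ℝ) : ℝ := if x < 1 / 5 then x / 3 else Real.sqrt (bta x)

theorem b0_near {x : ℝ} (h : x ≤ 1 / 4) : b0 x = x / 3 := by
  unfold b0
  split_ifs with h1
  · rfl
  · rw [bta_near h, show x ^ 2 / 9 = (x / 3) ^ 2 by ring, Real.sqrt_sq (by linarith)]

theorem b0_eq {x : ℝ} (h : 0 ≤ x) : b0 x = Real.sqrt (bta x) := by
  unfold b0
  split_ifs with h1
  · rw [bta_near (by linarith), show x ^ 2 / 9 = (x / 3) ^ 2 by ring, Real.sqrt_sq (by linarith)]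
  · rfl

theorem b0_smooth : ContDiff ℝ ∞ b0 := by
  rw [contDiff_iff_contDiffAt]
  intro x
  rcases lt_or_ge x (1 / 4) with h | h
  · have he : b0 =ᶠ[𝓝 x] fun x => x / 3 := by
      filter_upwards [Iio_mem_nhds h] with z hz
      exact b0_near (le_of_lt hz)
    refine ContDiffAt.congr_of_eventuallyEq ?_ he
    fun_prop
  · have hx : 0 < x := by linarith
    have he : b0 =ᶠ[𝓝 x] fun x => Real.sqrt (bta x) := by
      filter_upwards [Ioi_mem_nhds hx] with z hz
      exact b0_eq (le_of_lt hz)
    refine ContDiffAt.congr_of_eventuallyEq ?_ he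
    exact bta_smooth.contDiffAt.sqrt (bta_pos hx).ne'

theorem b0_pos {x : ℝ} (h : 0 < x) : 0 < b0 x := by
  rw [b0_eq h.le]
  exact Real.sqrt_pos.2 (bta_pos h)

/-- `f₀` -/
noncomputable def f0 (x : ℝ) : ℝ := 2 * b0 x + x * deriv b0 x

theorem f0_smooth : ContDiff ℝ ∞ f0 := by
  have h1 := b0_smooth
  have h2 : ContDiff ℝ ∞ (deriv b0) := (contDiff_infty_iff_deriv.1 h1).2
  unfold f0
  fun_prop

theorem f0_near {z : ℝ} (h : z ≤ 1 / 4) : f0 z = z := by
  have h1 : ∀ z : ℝ, z < 1 / 4 → f0 z = z := by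
    intro z hz
    have h2 : deriv b0 z = 1 / 3 := by
      have : b0 =ᶠ[𝓝 z] fun x => x / 3 := by
        filter_upwards [Iio_mem_nhds hz] with u hu
        exact b0_near (le_of_lt hu)
      rw [this.deriv_eq]
      simp
    unfold f0
    rw [h2, b0_near hz.le]
    ring
  have hcl : IsClosed {z : ℝ | f0 z = z} := isClosed_eq f0_smooth.continuous (by fun_prop)
  have hsub : closure (Iio (1 / 4 : ℝ)) ⊆ {z : ℝ | f0 z = z} :=
    hcl.closure_subset_iff.2 fun z hz => h1 z hz
  rw [closure_Iio] at hsub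
  exact hsub h

theorem f0b0 {z : ℝ} (h : 0 ≤ z) : f0 z * b0 z = 2 * bta z + 1 / 2 * (z * deriv bta z) := by
  rcases h.eq_or_lt with h0 | h0
  · rw [← h0]
    have h1 : b0 0 = 0 := by rw [b0_near (by norm_num)]; norm_num
    have h2 : bta 0 = 0 := by rw [bta_near (by norm_num)]; norm_num
    rw [h1, h2]; ring
  · have hb : HasDerivAt b0 (deriv b0 z) z :=
      ((b0_smooth.differentiable (by simp)) z).hasDerivAt
    have h1 : HasDerivAt (fun x => b0 x ^ 2) (2 * b0 z * deriv b0 z) z := by
      simpa using hb.fun_pow 2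
    have he : (fun x => b0 x ^ 2) =ᶠ[𝓝 z] bta := by
      filter_upwards [Ioi_mem_nhds h0] with u hu
      rw [b0_eq (le_of_lt hu), Real.sq_sqrt (bta_pos hu).le]
    have h2 : deriv bta z = 2 * b0 z * deriv b0 z := by
      rw [← he.deriv_eq, h1.deriv]
    have h3 : bta z = b0 z ^ 2 := by
      rw [b0_eq h0.le, Real.sq_sqrt (bta_pos h0).le]
    rw [h2, h3]
    unfold f0
    ring

/-- integration by parts in the angle -/
theorem parts (y : ℝ) :
    4 * (∫ t in (0 : ℝ)..(Real.pi / 2), Real.sin t ^ 2 * Real.cos t ^ 2 *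
      (2 * bta (y * Real.cos t) + 1 / 2 * ((y * Real.cos t) * deriv bta (y * Real.cos t)))) =
    2 * ∫ t in (0 : ℝ)..(Real.pi / 2), Real.cos t ^ 2 * bta (y * Real.cos t) := by
  have hb := bta_smooth.continuous
  have hb' : Continuous (deriv bta) := (contDiff_infty_iff_deriv.1 bta_smooth).2.continuous
  have hder : ∀ t : ℝ, HasDerivAt (fun t => Real.sin t * Real.cos t ^ 3 * bta (y * Real.cos t))
      ((Real.cos t ^ 4 - 3 * (Real.sin t ^ 2 * Real.cos t ^ 2)) * bta (y * Real.cos t) -
        Real.sin t ^ 2 * Real.cos t ^ 2 * ((y * Real.cos t) * deriv bta (y * Real.cos t))) t := by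
    intro t
    have hs := Real.hasDerivAt_sin t
    have hc := Real.hasDerivAt_cos t
    have h3 : HasDerivAt (fun t => Real.cos t ^ 3) (3 * Real.cos t ^ 2 * -Real.sin t) t := by
      simpa using hc.fun_pow 3
    have h1 : HasDerivAt (fun t => y * Real.cos t) (y * -Real.sin t) t := hc.const_mul y
    have hB : HasDerivAt bta (deriv bta (y * Real.cos t)) (y * Real.cos t) :=
      ((bta_smooth.differentiable (by simp)) (y * Real.cos t)).hasDerivAt
    have h2 := hB.comp t h1
    have h4 := (hs.mul h3).mul h2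
    refine h4.congr_deriv ?_
    simp only [Pi.mul_apply, Function.comp_apply]
    ring
  have hI : (∫ t in (0 : ℝ)..(Real.pi / 2),
      ((Real.cos t ^ 4 - 3 * (Real.sin t ^ 2 * Real.cos t ^ 2)) * bta (y * Real.cos t) -
        Real.sin t ^ 2 * Real.cos t ^ 2 * ((y * Real.cos t) * deriv bta (y * Real.cos t)))) = 0 := by
    rw [intervalIntegral.integral_eq_sub_of_hasDerivAt (fun t _ => hder t)
      (by
        apply Continuous.intervalIntegrable
        fun_prop)]
    simp
  have hsum : 4 * (∫ t in (0 : ℝ)..(Real.pi / 2), Real.sin t ^ 2 * Real.cos t ^ 2 *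
      (2 * bta (y * Real.cos t) + 1 / 2 * ((y * Real.cos t) * deriv bta (y * Real.cos t)))) =
      (∫ t in (0 : ℝ)..(Real.pi / 2), 2 * (Real.cos t ^ 2 * bta (y * Real.cos t))) -
      2 * (∫ t in (0 : ℝ)..(Real.pi / 2),
      ((Real.cos t ^ 4 - 3 * (Real.sin t ^ 2 * Real.cos t ^ 2)) * bta (y * Real.cos t) -
        Real.sin t ^ 2 * Real.cos t ^ 2 * ((y * Real.cos t) * deriv bta (y * Real.cos t)))) := by
    rw [← intervalIntegral.integral_const_mul, ← intervalIntegral.integral_const_mul,
      ← intervalIntegral.integral_sub]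
    · apply intervalIntegral.integral_congr
      intro t _
      simp only []
      have hsc : Real.cos t ^ 4 = Real.cos t ^ 2 - Real.sin t ^ 2 * Real.cos t ^ 2 := by
        have := Real.sin_sq_add_cos_sq t
        have h5 : Real.cos t ^ 4 = Real.cos t ^ 2 * Real.cos t ^ 2 := by ring
        rw [h5]
        nth_rewrite 2 [show Real.cos t ^ 2 = 1 - Real.sin t ^ 2 by linarith]
        ring
      rw [hsc]
      ring
    · apply Continuous.intervalIntegrable; fun_prop
    · apply Continuous.intervalIntegrable; fun_prop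
  rw [hsum, hI, mul_zero, sub_zero, intervalIntegral.integral_const_mul]

theorem prim (y : ℝ) : (∫ u in (0 : ℝ)..1, u ^ 2 * GG (y * u)) = CC y := by
  have hder : ∀ u : ℝ, HasDerivAt (fun u => u ^ 3 * CC (y * u)) (u ^ 2 * GG (y * u)) u := by
    intro u
    have h1 : HasDerivAt (fun u => y * u) (y * 1) u := (hasDerivAt_id u).const_mul y
    have h2 : HasDerivAt (fun u => CC (y * u)) (deriv CC (y * u) * (y * 1)) u :=
      (((CC_smooth.differentiable (by simp)) (y * u)).hasDerivAt).comp u h1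
    have h3 : HasDerivAt (fun u : ℝ => u ^ 3) (3 * u ^ 2) u := by
      simpa using hasDerivAt_pow 3 u
    have h4 := h3.mul h2
    refine h4.congr_deriv ?_
    unfold GG
    ring
  rw [intervalIntegral.integral_eq_sub_of_hasDerivAt (fun u _ => hder u)
    (by
      have := GG_smooth.continuous
      apply Continuous.intervalIntegrable
      fun_prop)]
  simp

theorem F0_main (hsph : P_sph) (y : ℝ) (h0 : 0 ≤ y) :
    4 * (∫ t in (0 : ℝ)..(Real.pi / 2), Real.sin t ^ 2 * Real.cos t ^ 2 *
      (f0 (y * Real.cos t) * b0 (y * Real.cos t))) = CC y := by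
  have e1 : (∫ t in (0 : ℝ)..(Real.pi / 2), Real.sin t ^ 2 * Real.cos t ^ 2 *
      (f0 (y * Real.cos t) * b0 (y * Real.cos t))) =
      ∫ t in (0 : ℝ)..(Real.pi / 2), Real.sin t ^ 2 * Real.cos t ^ 2 *
      (2 * bta (y * Real.cos t) + 1 / 2 * ((y * Real.cos t) * deriv bta (y * Real.cos t))) := by
    apply intervalIntegral.integral_congr
    intro t ht
    rw [uIcc_of_le Th_le] at ht
    have hc0 : 0 ≤ Real.cos t := Real.cos_nonneg_of_mem_Icc ⟨by linarith [ht.1, Real.pi_pos], ht.2⟩
    simp only []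
    rw [f0b0 (mul_nonneg h0 hc0)]
  rw [e1, parts]
  have hG := GG_smooth.continuous
  have e2 : (∫ t in (0 : ℝ)..(Real.pi / 2), Real.cos t ^ 2 * bta (y * Real.cos t)) =
      1 / Real.pi * ∫ t in (0 : ℝ)..(Real.pi / 2), ∫ φ in (0 : ℝ)..(Real.pi / 2),
        Real.sin φ ^ 3 * (Real.cos t ^ 2 * GG (y * Real.sin φ * Real.cos t)) := by
    rw [← intervalIntegral.integral_const_mul]
    apply intervalIntegral.integral_congr
    intro t _
    simp only []
    unfold bta
    rw [mul_left_comm, ← intervalIntegral.integral_const_mul]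
    congr 1
    apply intervalIntegral.integral_congr
    intro φ _
    simp only []
    rw [show y * Real.cos t * Real.sin φ = y * Real.sin φ * Real.cos t by ring]
    ring
  rw [e2, ← swap_cont (fun φ t => Real.sin φ ^ 3 * (Real.cos t ^ 2 *
    GG (y * Real.sin φ * Real.cos t))) (by fun_prop), dbl1 hsph GG hG y, prim]
  have := Real.pi_pos
  field_simp

theorem f0data (hsph : P_sph) : P_F0 := by
  refine ⟨chi, CC, b0, f0, ?_⟩
  exact
    { χ_smooth := chi_smooth
      χ_zero := fun x hx => chi_zero hx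
      χ_one := fun x hx => chi_one hx
      C_eq := fun x => rfl
      b_smooth := b0_smooth
      f_smooth := f0_smooth
      b_near := fun x hx => b0_near hx
      f_near := fun x hx => f0_near hx
      b_pos := fun x hx => b0_pos hx
      f_eq := fun x => rfl
      main := fun y h0 _ => F0_main hsph y h0 }

end Pool.Agent.W596.Uni
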