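import Pool.Agent.W596.Uni.Dbl

/-!
# Landsberg unicorn: injectivity of `Q` and `P` (UNI-INJ)
-/

set_option autoImplicit false

open Set MeasureTheory
open scoped ContDiff Topology

namespace Pool.Agent.W596.Uni

open Pool.Agent.W668.Uni

theorem evX_inj {f g : X} (h : ∀ x : ℝ, 0 ≤ x → x ≤ 1 → evX f x = evX g x) : f = g := by
  ext x
  have h1 := h x x.2.1 x.2.2
  unfold evX at h1
  rwa [projIcc_val] at h1

theorem evX_zero (x : ℝ) : evX (0 : X) x = 0 := rfl

theorem evX_P (O : Ops) (g : X) (y : ℝ) (h0 : 0 ≤ y) (h1 : y ≤ 1) :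
    evX (O.P g) y = ∫ t in (0 : ℝ)..(Real.pi / 2), 4 * (Real.sin t ^ 2 * Real.cos t ^ 2 *
      evX g (y * Real.cos t)) := by
  unfold Ops.P
  rw [O.W_ev]
  apply intervalIntegral.integral_congr
  intro t ht
  rw [uIcc_of_le Th_le] at ht
  have e1 : evY ((4 : ℝ) • (c ^ 2 * O.lift g)) y t = 4 * (evY c y t ^ 2 * evY (O.lift g) y t) := rfl
  have e2 : evY c y t = Real.cos t := by
    have : evY c y t = Real.cos (projIcc (0 : ℝ) (Real.pi / 2) Th_le t) := rfl
    rw [this, projIcc_of_mem Th_le ht]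
  show Real.sin t ^ 2 * evY ((4 : ℝ) • (c ^ 2 * O.lift g)) y t = _
  rw [e1, e2, O.lift_ev g y t h0 h1 ht.1 ht.2]
  ring

/-- if all the weighted integrals vanish then `g = 0` -/
theorem eq_zero_of_prim (g : X)
    (h : ∀ x : ℝ, 0 < x → x < 1 → (∫ r in (0 : ℝ)..x, r ^ 2 * evX g r) = 0) : g = 0 := by
  have hc : Continuous (fun r : ℝ => r ^ 2 * evX g r) :=
    (continuous_pow 2).mul (continuous_evX g)
  have h1 : ∀ x ∈ Ioo (0 : ℝ) 1, evX g x = 0 := by
    intro x hx
    have hd : HasDerivAt (fun x => ∫ r in (0 : ℝ)..x, r ^ 2 * evX g r) (x ^ 2 * evX g x) x :=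
      intervalIntegral.integral_hasDerivAt_right (hc.intervalIntegrable _ _)
        (hc.stronglyMeasurableAtFilter _ _) hc.continuousAt
    have hz : HasDerivAt (fun _ : ℝ => (0 : ℝ)) 0 x := hasDerivAt_const x 0
    have he : (fun x => ∫ r in (0 : ℝ)..x, r ^ 2 * evX g r) =ᶠ[𝓝 x] (fun _ => (0 : ℝ)) := by
      filter_upwards [Ioo_mem_nhds hx.1 hx.2] with z hz
      exact h z hz.1 hz.2
    have := (hd.congr_of_eventuallyEq he.symm).unique hz
    rcases mul_eq_zero.1 this with h2 | h2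
    · have : x = 0 := by simpa using h2
      exact absurd this hx.1.ne'
    · exact h2
  apply evX_inj
  intro x h0 h1'
  rw [evX_zero]
  have hcl : IsClosed {z : ℝ | evX g z = 0} := isClosed_eq (continuous_evX g) continuous_const
  have hsub : closure (Ioo (0 : ℝ) 1) ⊆ {z : ℝ | evX g z = 0} :=
    hcl.closure_subset_iff.2 fun z hz => h1 z hz
  rw [closure_Ioo zero_ne_one] at hsub
  exact hsub ⟨h0, h1'⟩

theorem scale (F : ℝ → ℝ) (x : ℝ) (hx : 0 < x) :
    (∫ t in (0 : ℝ)..1, F (x * t)) = x⁻¹ * ∫ r in (0 : ℝ)..x, F r := by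
  rw [intervalIntegral.integral_comp_mul_left F hx.ne']
  simp

theorem swap_cont (F : ℝ → ℝ → ℝ) (hF : Continuous (fun p : ℝ × ℝ => F p.1 p.2)) (a b c d : ℝ) :
    (∫ x in a..b, ∫ y in c..d, F x y) = ∫ y in c..d, ∫ x in a..b, F x y := by
  apply intervalIntegral_intervalIntegral_swap
  have h1 : IntegrableOn (Function.uncurry F) (uIcc a b ×ˢ uIcc c d) := by
    apply ContinuousOn.integrableOn_compact (isCompact_uIcc.prod isCompact_uIcc)
    exact hF.continuousOn
  exact h1.mono_set (prod_mono uIoc_subset_uIcc uIoc_subset_uIcc)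

/-- (a) -/
theorem Q_int (hsph : P_sph) (O : Ops) (g : X) (x : ℝ) (h0 : 0 ≤ x) (h1 : x ≤ 1) :
    (∫ t in (0 : ℝ)..(Real.pi / 2), Real.cos t ^ 2 * evX (O.Q g) (x * Real.cos t)) =
      Real.pi / 2 * ∫ t in (0 : ℝ)..1, t ^ 2 * evX g (x * t) := by
  have hg := continuous_evX g
  rw [← dbl1 hsph (evX g) hg x]
  rw [swap_cont (fun φ t => Real.sin φ ^ 3 * (Real.cos t ^ 2 *
    evX g (x * Real.sin φ * Real.cos t))) (by fun_prop)]
  apply intervalIntegral.integral_congr
  intro t ht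
  rw [uIcc_of_le Th_le] at ht
  have hc0 : 0 ≤ Real.cos t := Real.cos_nonneg_of_mem_Icc ⟨by linarith [ht.1, Real.pi_pos], ht.2⟩
  have hc1 : Real.cos t ≤ 1 := Real.cos_le_one t
  simp only []
  rw [O.Q_ev g (x * Real.cos t) (by positivity) (by nlinarith),
    ← intervalIntegral.integral_const_mul]
  congr 1
  funext φ
  rw [show x * Real.cos t * Real.sin φ = x * Real.sin φ * Real.cos t by ring]
  ring

/-- (b) -/
theorem QP (hsph : P_sph) (O : Ops) (g : X) (x : ℝ) (h0 : 0 ≤ x) (h1 : x ≤ 1) :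
    evX (O.Q (O.P g)) x = 2 * Real.pi * ∫ s in (0 : ℝ)..1, (s ^ 2 - s ^ 3) * evX g (x * s) := by
  rw [← dbl2 hsph (evX g) (continuous_evX g) x, O.Q_ev _ x h0 h1]
  apply intervalIntegral.integral_congr
  intro φ hφ
  rw [uIcc_of_le Th_le] at hφ
  have hs0 : 0 ≤ Real.sin φ := Real.sin_nonneg_of_nonneg_of_le_pi hφ.1
    (by linarith [hφ.2, Real.pi_pos])
  have hs1 : Real.sin φ ≤ 1 := Real.sin_le_one φ
  simp only []
  rw [evX_P O g (x * Real.sin φ) (by positivity) (by nlinarith),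
    ← intervalIntegral.integral_const_mul]

theorem Q_inj (hsph : P_sph) (O : Ops) (g : X) (h : O.Q g = 0) : g = 0 := by
  apply eq_zero_of_prim
  intro x hx0 hx1
  have h2 := Q_int hsph O g x hx0.le hx1.le
  rw [h] at h2
  simp only [evX_zero, mul_zero, intervalIntegral.integral_zero] at h2
  have h3 : (∫ t in (0 : ℝ)..1, t ^ 2 * evX g (x * t)) = 0 := by
    rcases mul_eq_zero.1 h2.symm with h4 | h4
    · exact absurd h4 (by positivity)
    · exact h4
  have h5 : (∫ t in (0 : ℝ)..1, (x * t) ^ 2 * evX g (x * t)) = 0 := by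
    have : (∫ t in (0 : ℝ)..1, (x * t) ^ 2 * evX g (x * t)) =
        ∫ t in (0 : ℝ)..1, x ^ 2 * (t ^ 2 * evX g (x * t)) := by
      congr 1; funext t; ring
    rw [this, intervalIntegral.integral_const_mul, h3, mul_zero]
  rw [scale (fun r => r ^ 2 * evX g r) x hx0] at h5
  rcases mul_eq_zero.1 h5 with h6 | h6
  · exact absurd h6 (by positivity)
  · exact h6

theorem P_inj' (hsph : P_sph) (O : Ops) (g : X) (h : O.P g = 0) : g = 0 := by
  have hc2 : Continuous (fun r : ℝ => r ^ 2 * evX g r) :=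
    (continuous_pow 2).mul (continuous_evX g)
  have hc3 : Continuous (fun r : ℝ => r ^ 3 * evX g r) :=
    (continuous_pow 3).mul (continuous_evX g)
  have h1 : ∀ x : ℝ, 0 < x → x < 1 →
      x * (∫ r in (0 : ℝ)..x, r ^ 2 * evX g r) - (∫ r in (0 : ℝ)..x, r ^ 3 * evX g r) = 0 := by
    intro x hx0 hx1
    have h2 := QP hsph O g x hx0.le hx1.le
    rw [h, map_zero, evX_zero] at h2
    have h3 : (∫ s in (0 : ℝ)..1, (s ^ 2 - s ^ 3) * evX g (x * s)) = 0 := by
      rcases mul_eq_zero.1 h2.symm with h4 | h4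
      · exact absurd h4 (by positivity)
      · exact h4
    have h5 : (∫ t in (0 : ℝ)..1, (x * (x * t) ^ 2 - (x * t) ^ 3) * evX g (x * t)) = 0 := by
      have : (∫ t in (0 : ℝ)..1, (x * (x * t) ^ 2 - (x * t) ^ 3) * evX g (x * t)) =
          ∫ t in (0 : ℝ)..1, x ^ 3 * ((t ^ 2 - t ^ 3) * evX g (x * t)) := by
        congr 1; funext t; ring
      rw [this, intervalIntegral.integral_const_mul, h3, mul_zero]
    rw [scale (fun r => (x * r ^ 2 - r ^ 3) * evX g r) x hx0] at h5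
    have h6 : (∫ r in (0 : ℝ)..x, (x * r ^ 2 - r ^ 3) * evX g r) = 0 := by
      rcases mul_eq_zero.1 h5 with h6 | h6
      · exact absurd h6 (by positivity)
      · exact h6
    rw [← h6, ← intervalIntegral.integral_const_mul, ← intervalIntegral.integral_sub]
    · congr 1; funext r; ring
    · exact (hc2.const_mul x).intervalIntegrable _ _
    · exact hc3.intervalIntegrable _ _
  apply eq_zero_of_prim
  intro x hx0 hx1
  have hd2 : HasDerivAt (fun x => ∫ r in (0 : ℝ)..x, r ^ 2 * evX g r) (x ^ 2 * evX g x) x :=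
    intervalIntegral.integral_hasDerivAt_right (hc2.intervalIntegrable _ _)
      (hc2.stronglyMeasurableAtFilter _ _) hc2.continuousAt
  have hd3 : HasDerivAt (fun x => ∫ r in (0 : ℝ)..x, r ^ 3 * evX g r) (x ^ 3 * evX g x) x :=
    intervalIntegral.integral_hasDerivAt_right (hc3.intervalIntegrable _ _)
      (hc3.stronglyMeasurableAtFilter _ _) hc3.continuousAt
  have hd : HasDerivAt (fun x => x * (∫ r in (0 : ℝ)..x, r ^ 2 * evX g r) -
      (∫ r in (0 : ℝ)..x, r ^ 3 * evX g r))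
      (1 * (∫ r in (0 : ℝ)..x, r ^ 2 * evX g r) + x * (x ^ 2 * evX g x) - x ^ 3 * evX g x) x :=
    ((hasDerivAt_id x).mul hd2).sub hd3
  have he : (fun x => x * (∫ r in (0 : ℝ)..x, r ^ 2 * evX g r) -
      (∫ r in (0 : ℝ)..x, r ^ 3 * evX g r)) =ᶠ[𝓝 x] (fun _ => (0 : ℝ)) := by
    filter_upwards [Ioo_mem_nhds hx0 hx1] with z hz
    exact h1 z hz.1 hz.2
  have := (hd.congr_of_eventuallyEq he.symm).unique (hasDerivAt_const x (0 : ℝ))
  linarith

theorem inj (hsph : P_sph) : P_inj := by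
  intro O
  exact ⟨Q_inj hsph O, P_inj' hsph O, QP hsph O⟩

end Pool.Agent.W596.Uni
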